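import Pool.Agent.Helper70.Matching.Specs4

/-!
# Packet M-D1: uniform `k`-subsets against uniform `k`-tuples
-/

open Finset

namespace Pool.Agent.Helper43.Matching

open Pool.Agent.Helper70.Matching

theorem descFactorial_ge (n : ℕ) (hn : 0 < n) : ∀ k : ℕ, k ≤ n →
    (n : ℝ) ^ k * (1 - (k : ℝ) * ((k : ℝ) - 1) / (2 * n)) ≤ (n.descFactorial k : ℝ) := by
  intro k
  induction k with
  | zero => intro _; simp
  | succ k ih =>
    intro hk
    have h1 := ih (by omega)
    have hn0 : (0 : ℝ) < n := by exact_mod_cast hn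
    have hkn : (0 : ℝ) ≤ (n : ℝ) - k := by
      have : (k : ℝ) ≤ n := by exact_mod_cast (by omega : k ≤ n)
      linarith
    rw [Nat.descFactorial_succ, Nat.cast_mul, Nat.cast_sub (by omega : k ≤ n)]
    refine le_trans ?_ (mul_le_mul_of_nonneg_left h1 hkn)
    have h2 : ((n : ℝ) - k) * ((n : ℝ) ^ k * (1 - (k : ℝ) * ((k : ℝ) - 1) / (2 * n))) -
        (n : ℝ) ^ (k + 1) * (1 - ((k + 1 : ℕ) : ℝ) * (((k + 1 : ℕ) : ℝ) - 1) / (2 * n)) =
        (n : ℝ) ^ k * ((k : ℝ) * ((k : ℝ) * ((k : ℝ) - 1))) / (2 * n) := by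
      push_cast
      field_simp
      ring
    have h3 : 0 ≤ (n : ℝ) ^ k * ((k : ℝ) * ((k : ℝ) * ((k : ℝ) - 1))) / (2 * n) := by
      have h4 : (0 : ℝ) ≤ (k : ℝ) * ((k : ℝ) - 1) := by
        rcases Nat.eq_zero_or_pos k with h0 | h0
        · simp [h0]
        · have : (1 : ℝ) ≤ k := by exact_mod_cast h0
          nlinarith
      positivity
    linarith

section

variable {V : Type} [Fintype V] [DecidableEq V]

/-- the configuration of a tuple -/
def tcfg {k : ℕ} (v : Fin k → V) : V → Bool := fun x => decide (∃ i, v i = x)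

theorem filter_tcfg {k : ℕ} (v : Fin k → V) :
    univ.filter (fun x => tcfg v x = true) = univ.image v := by
  ext x
  simp [tcfg]

theorem val_tcfg {k : ℕ} (v : Fin k → V) (hv : Function.Injective v) :
    (univ.filter (fun x => tcfg v x = true)).val = (univ : Finset (Fin k)).val.map v := by
  rw [filter_tcfg, Finset.image_val_of_injOn (hv.injOn)]

theorem cnt_tcfg {k : ℕ} (v : Fin k → V) (hv : Function.Injective v) :
    cnt univ (tcfg v) = k := by
  unfold cnt
  rw [filter_tcfg, Finset.card_image_of_injective _ hv, Finset.card_univ, Fintype.card_fin]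

theorem card_img {k : ℕ} (s : Finset V) (hs : s.card = k) :
    (univ.filter (fun v : Fin k → V => Function.Injective v ∧ univ.image v = s)).card =
      k.factorial := by
  classical
  have h1 : Fintype.card (Fin k ↪ s) = k.factorial := by
    rw [Fintype.card_embedding_eq, Fintype.card_coe, Fintype.card_fin, hs, Nat.descFactorial_self]
  rw [← h1, ← Finset.card_univ]
  symm
  refine Finset.card_bij (fun e _ => fun i => ((e i : s) : V)) ?_ ?_ ?_
  · intro e _
    rw [mem_filter]
    have hinj : Function.Injective (fun i => ((e i : s) : V)) :=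
      fun i j hij => e.injective (Subtype.ext hij)
    refine ⟨mem_univ _, hinj, ?_⟩
    refine Finset.eq_of_subset_of_card_le ?_ ?_
    · intro x hx
      rw [mem_image] at hx
      obtain ⟨i, -, rfl⟩ := hx
      exact (e i).2
    · rw [Finset.card_image_of_injective _ hinj, Finset.card_univ, Fintype.card_fin]
      exact hs.le
  · intro e _ e' _ h
    ext i
    exact congrFun h i
  · intro v hv
    rw [mem_filter] at hv
    obtain ⟨-, hv1, hv2⟩ := hv
    have h3 : ∀ i, v i ∈ s := by
      intro i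
      rw [← hv2]
      exact mem_image_of_mem v (mem_univ i)
    refine ⟨⟨fun i => ⟨v i, h3 i⟩, ?_⟩, mem_univ _, rfl⟩
    intro i j hij
    exact hv1 (congrArg Subtype.val hij)

theorem tcfg_eq_iff {k : ℕ} (v : Fin k → V) (ω : V → Bool) :
    tcfg v = ω ↔ univ.image v = univ.filter (fun x => ω x = true) := by
  rw [← filter_tcfg]
  constructor
  · intro h
    rw [h]
  · intro h
    funext x
    have h4 : x ∈ univ.filter (fun x => tcfg v x = true) ↔ x ∈ univ.filter (fun x => ω x = true) := by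
      rw [h]
    rw [mem_filter, mem_filter] at h4
    exact Bool.eq_iff_iff.2 (by simpa using h4)

theorem card_fiber {k : ℕ} (ω : V → Bool) (hω : cnt univ ω = k) :
    (univ.filter (fun v : Fin k → V => Function.Injective v ∧ tcfg v = ω)).card =
      k.factorial := by
  simp only [tcfg_eq_iff]
  exact card_img _ hω

theorem sum_inj {E : Type} [AddCommMonoid E] (k : ℕ) (φ : Multiset V → E) :
    ∑ v ∈ univ.filter (fun v : Fin k → V => Function.Injective v),
      φ ((univ : Finset (Fin k)).val.map v) =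
    k.factorial • ∑ ω ∈ univ.filter (fun ω : V → Bool => cnt univ ω = k),
      φ ((univ.filter (fun x => ω x = true)).val) := by
  classical
  rw [← Finset.sum_fiberwise_of_maps_to (s := univ.filter (fun v : Fin k → V =>
    Function.Injective v)) (t := univ.filter (fun ω : V → Bool => cnt univ ω = k))
    (g := fun v => tcfg v)]
  · rw [Finset.smul_sum]
    refine Finset.sum_congr rfl ?_
    intro ω hω
    rw [mem_filter] at hω
    have h1 : (univ.filter (fun v : Fin k → V => Function.Injective v)).filter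
        (fun v => tcfg v = ω) =
        univ.filter (fun v : Fin k → V => Function.Injective v ∧ tcfg v = ω) := by
      rw [Finset.filter_filter]
    rw [h1, ← card_fiber ω hω.2, ← Finset.sum_const]
    refine Finset.sum_congr rfl ?_
    intro v hv
    rw [mem_filter] at hv
    rw [← val_tcfg v hv.2.1, hv.2.2]
  · intro v hv
    rw [mem_filter] at hv ⊢
    exact ⟨mem_univ _, cnt_tcfg v hv.2⟩

theorem card_inj (k : ℕ) :
    (univ.filter (fun v : Fin k → V => Function.Injective v)).card =
      (Fintype.card V).descFactorial k := by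
  classical
  have h1 := Fintype.card_embedding_eq (α := Fin k) (β := V)
  rw [Fintype.card_fin] at h1
  rw [← h1, ← Fintype.card_subtype]
  exact Fintype.card_congr (Equiv.subtypeInjectiveEquivEmbedding (Fin k) V)

theorem key (hV : 0 < Fintype.card V) (k : ℕ) (hk : k ≤ Fintype.card V) (φ : Multiset V → ℂ)
    (hφ : ∀ m, ‖φ m‖ ≤ 1) :
    ‖∑ ω ∈ univ.filter (fun ω : V → Bool => cnt univ ω = k),
      (φ ((univ.filter (fun x => ω x = true)).val) -
        (((Fintype.card V : ℂ)) ^ k)⁻¹ *
          ∑ v : Fin k → V, φ ((univ : Finset (Fin k)).val.map v))‖ ≤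
    ((univ.filter (fun ω : V → Bool => cnt univ ω = k)).card : ℝ) *
      ((k : ℝ) ^ 2 / Fintype.card V) := by
  classical
  set n := Fintype.card V with hn
  set W := univ.filter (fun ω : V → Bool => cnt univ ω = k) with hW
  set I := univ.filter (fun v : Fin k → V => Function.Injective v) with hI
  set f : (Fin k → V) → ℂ := fun v => φ ((univ : Finset (Fin k)).val.map v) with hf
  have hn0 : (0 : ℝ) < n := by exact_mod_cast hV
  have hb0 : (0 : ℝ) < (n : ℝ) ^ k := by positivity
  have hfact : (0 : ℝ) < k.factorial := by exact_mod_cast k.factorial_pos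
  have h1 : ∑ v ∈ I, f v = (k.factorial : ℂ) *
      ∑ ω ∈ W, φ ((univ.filter (fun x => ω x = true)).val) := by
    have := sum_inj (V := V) k φ
    rw [nsmul_eq_mul] at this
    exact this
  have h2 : (I.card : ℝ) = k.factorial * W.card := by
    have := sum_inj (V := V) k (fun _ => (1 : ℝ))
    rw [nsmul_eq_mul, Finset.sum_const, Finset.sum_const, nsmul_eq_mul, nsmul_eq_mul, mul_one,
      mul_one] at this
    exact this
  have h3 : (I.card : ℝ) = (n.descFactorial k : ℝ) := by
    rw [hI, card_inj k]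
  have h4 := descFactorial_ge n hV k hk
  rw [← h3] at h4
  -- the total number of tuples
  have h5 : (((univ : Finset (Fin k → V)).card : ℕ) : ℝ) = (n : ℝ) ^ k := by
    rw [Finset.card_univ, Fintype.card_fun, Fintype.card_fin, ← hn]
    push_cast
    rfl
  have h6 : (I.card : ℝ) + ((Iᶜ).card : ℝ) = (n : ℝ) ^ k := by
    rw [← h5, Finset.card_univ, ← Nat.cast_add, Finset.card_add_card_compl]
  have h7 : ∑ v, f v = ∑ v ∈ I, f v + ∑ v ∈ Iᶜ, f v := (Finset.sum_add_sum_compl I f).symm
  have hfI : ‖∑ v ∈ I, f v‖ ≤ I.card := by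
    refine (norm_sum_le _ _).trans ?_
    refine (Finset.sum_le_sum fun v _ => hφ _).trans ?_
    simp
  have hfIc : ‖∑ v ∈ Iᶜ, f v‖ ≤ (Iᶜ).card := by
    refine (norm_sum_le _ _).trans ?_
    refine (Finset.sum_le_sum fun v _ => hφ _).trans ?_
    simp
  set b : ℝ := (n : ℝ) ^ k with hb
  set a : ℝ := (I.card : ℝ) with ha
  have ha0 : 0 ≤ a := Nat.cast_nonneg _
  have hc0 : (0 : ℝ) ≤ ((Iᶜ).card : ℝ) := Nat.cast_nonneg _
  -- the main estimate, multiplied by `k!`
  have h8 : (k.factorial : ℂ) * ∑ ω ∈ W, (φ ((univ.filter (fun x => ω x = true)).val) -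
        (((n : ℂ)) ^ k)⁻¹ * ∑ v : Fin k → V, f v) =
      ((1 - a / b : ℝ) : ℂ) * ∑ v ∈ I, f v - ((a / b : ℝ) : ℂ) * ∑ v ∈ Iᶜ, f v := by
    rw [Finset.sum_sub_distrib, Finset.sum_const, nsmul_eq_mul, mul_sub, ← h1, h7]
    have h9 : (k.factorial : ℂ) * ((W.card : ℂ) * ((((n : ℂ)) ^ k)⁻¹ *
        (∑ v ∈ I, f v + ∑ v ∈ Iᶜ, f v))) =
        ((a / b : ℝ) : ℂ) * (∑ v ∈ I, f v + ∑ v ∈ Iᶜ, f v) := by
      have h10 : ((a / b : ℝ) : ℂ) = (k.factorial : ℂ) * (W.card : ℂ) * (((n : ℂ)) ^ k)⁻¹ := by
        rw [h2, hb]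
        push_cast
        rw [div_eq_mul_inv]
      rw [h10]
      ring
    rw [h9]
    push_cast
    ring
  have hab : a / b ≤ 1 := by
    rw [div_le_one hb0]
    linarith
  have hab0 : 0 ≤ a / b := div_nonneg ha0 hb0.le
  have h11 : ‖(k.factorial : ℂ) * ∑ ω ∈ W, (φ ((univ.filter (fun x => ω x = true)).val) -
        (((n : ℂ)) ^ k)⁻¹ * ∑ v : Fin k → V, f v)‖ ≤ a * ((k : ℝ) ^ 2 / n) := by
    rw [h8]
    refine (norm_sub_le _ _).trans ?_
    rw [norm_mul, norm_mul, Complex.norm_real, Complex.norm_real, Real.norm_of_nonneg hab0,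
      Real.norm_of_nonneg (by linarith : (0 : ℝ) ≤ 1 - a / b)]
    have h12 : (1 - a / b) * ‖∑ v ∈ I, f v‖ + a / b * ‖∑ v ∈ Iᶜ, f v‖ ≤
        (1 - a / b) * a + a / b * ((Iᶜ).card : ℝ) := by
      have := mul_le_mul_of_nonneg_left hfI (by linarith : (0 : ℝ) ≤ 1 - a / b)
      have := mul_le_mul_of_nonneg_left hfIc hab0
      linarith
    refine h12.trans ?_
    have h13 : ((Iᶜ).card : ℝ) = b - a := by linarith
    rw [h13]
    have h14 : (1 - a / b) * a + a / b * (b - a) = a * (2 * (1 - a / b)) := by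
      field_simp
      ring
    rw [h14]
    refine mul_le_mul_of_nonneg_left ?_ ha0
    have h15 : 1 - (k : ℝ) * ((k : ℝ) - 1) / (2 * n) ≤ a / b := by
      rw [le_div_iff₀ hb0, mul_comm]
      exact h4
    have h16 : 2 * ((k : ℝ) * ((k : ℝ) - 1) / (2 * n)) ≤ (k : ℝ) ^ 2 / n := by
      have h17 : 2 * ((k : ℝ) * ((k : ℝ) - 1) / (2 * n)) = ((k : ℝ) ^ 2 - k) / n := by
        field_simp
      rw [h17]
      refine div_le_div_of_nonneg_right ?_ hn0.le
      have : (0 : ℝ) ≤ k := Nat.cast_nonneg _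
      linarith
    linarith
  rw [norm_mul, Complex.norm_natCast, h2, mul_assoc] at h11
  exact le_of_mul_le_mul_left h11 hfact

omit [DecidableEq V] in
theorem PW_eq (p : ℝ) (ω : V → Bool) :
    PW (bw p) ω = p ^ (cnt univ ω) * (1 - p) ^ (Fintype.card V - cnt univ ω) := by
  classical
  unfold PW bw cnt
  have h1 : ∏ k, (if ω k = true then p else 1 - p) =
      (∏ k ∈ univ.filter (fun x => ω x = true), p) *
        ∏ k ∈ univ.filter (fun x => ¬ ω x = true), (1 - p) := Finset.prod_ite _ _
  rw [h1, Finset.prod_const, Finset.prod_const]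
  congr 2
  have h2 := Finset.card_filter_add_card_filter_not (s := (univ : Finset V))
    (fun x => ω x = true)
  rw [Finset.card_univ] at h2
  omega

omit [DecidableEq V] in
theorem cnt_le (ω : V → Bool) : cnt univ ω ≤ Fintype.card V := by
  unfold cnt
  exact Finset.card_le_univ _

end

/-- Packet M-D1. -/
theorem subset : Spec_subset := by
  classical
  intro N p Gm hN hp0 hp1 φ g hφ hg
  have hcard : Fintype.card (Site N) = N ^ 2 := by
    rw [Fintype.card_prod, Fintype.card_fin, sq]
  have hV : 0 < Fintype.card (Site N) := by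
    rw [hcard]
    positivity
  set n := Fintype.card (Site N) with hn
  have hGm : 0 ≤ Gm := (norm_nonneg _).trans (hg 0)
  have hAv : ∀ k, Av N k φ = (((n : ℂ)) ^ k)⁻¹ *
      ∑ v : Fin k → Site N, φ ((univ : Finset (Fin k)).val.map v) := by
    intro k
    unfold Av
    rw [hcard]
    push_cast
    rfl
  have hfib : ∀ {E : Type} [AddCommMonoid E] (F : (Site N → Bool) → E),
      ∑ ω, F ω = ∑ k ∈ range (n + 1), ∑ ω ∈ univ.filter (fun ω : Site N → Bool =>
        cnt univ ω = k), F ω := by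
    intro E _ F
    rw [Finset.sum_fiberwise_of_maps_to]
    intro ω _
    rw [mem_range]
    have := cnt_le ω
    omega
  rw [← Ex_sub]
  have h1 : Ex (bw p) (fun ω : Site N → Bool =>
        g (Nw ω) * φ ((univ.filter (fun v => ω v = true)).val) - g (Nw ω) * Av N (Nw ω) φ) =
      ∑ k ∈ range (n + 1), ((p ^ k * (1 - p) ^ (n - k) : ℝ) : ℂ) * (g k *
        ∑ ω ∈ univ.filter (fun ω : Site N → Bool => cnt univ ω = k),
          (φ ((univ.filter (fun x => ω x = true)).val) - Av N k φ)) := by
    unfold Ex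
    rw [hfib]
    refine Finset.sum_congr rfl fun k _ => ?_
    rw [Finset.mul_sum, Finset.mul_sum]
    refine Finset.sum_congr rfl fun ω hω => ?_
    rw [mem_filter] at hω
    have hNw : Nw ω = k := hω.2
    show PW (bw p) ω • (g (Nw ω) * φ ((univ.filter (fun v => ω v = true)).val) -
      g (Nw ω) * Av N (Nw ω) φ) = _
    rw [PW_eq, hω.2, hNw, Complex.real_smul, ← mul_sub]
  have h2 : Ex (bw p) (fun ω : Site N → Bool => (Nw ω : ℝ) ^ 2) =
      ∑ k ∈ range (n + 1), (p ^ k * (1 - p) ^ (n - k)) *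
        (((univ.filter (fun ω : Site N → Bool => cnt univ ω = k)).card : ℝ) * (k : ℝ) ^ 2) := by
    unfold Ex
    rw [hfib]
    refine Finset.sum_congr rfl fun k _ => ?_
    have h3 : ∀ ω ∈ univ.filter (fun ω : Site N → Bool => cnt univ ω = k),
        PW (bw p) ω • (Nw ω : ℝ) ^ 2 = (p ^ k * (1 - p) ^ (n - k)) * (k : ℝ) ^ 2 := by
      intro ω hω
      rw [mem_filter] at hω
      have hNw : Nw ω = k := hω.2
      rw [PW_eq, hω.2, hNw, smul_eq_mul]
    rw [Finset.sum_congr rfl h3, Finset.sum_const, nsmul_eq_mul]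
    ring
  rw [h1, h2]
  refine (norm_sum_le _ _).trans ?_
  rw [Finset.mul_sum, Finset.sum_div]
  refine Finset.sum_le_sum fun k hk => ?_
  have hk' : k ≤ n := by
    rw [mem_range] at hk
    omega
  have hw : 0 ≤ p ^ k * (1 - p) ^ (n - k) :=
    mul_nonneg (pow_nonneg hp0 _) (pow_nonneg (by linarith) _)
  rw [norm_mul, norm_mul, Complex.norm_real, Real.norm_of_nonneg hw]
  have h4 := key (V := Site N) hV k hk' φ hφ
  rw [← hn] at h4
  have h5 : ‖∑ ω ∈ univ.filter (fun ω : Site N → Bool => cnt univ ω = k),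
      (φ ((univ.filter (fun x => ω x = true)).val) - Av N k φ)‖ ≤
      ((univ.filter (fun ω : Site N → Bool => cnt univ ω = k)).card : ℝ) *
      ((k : ℝ) ^ 2 / n) := by
    rw [hAv k]
    exact h4
  have h6 : ‖g k‖ * ‖∑ ω ∈ univ.filter (fun ω : Site N → Bool => cnt univ ω = k),
      (φ ((univ.filter (fun x => ω x = true)).val) - Av N k φ)‖ ≤
      Gm * (((univ.filter (fun ω : Site N → Bool => cnt univ ω = k)).card : ℝ) *
      ((k : ℝ) ^ 2 / n)) :=
    mul_le_mul (hg k) h5 (norm_nonneg _) hGm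
  refine (mul_le_mul_of_nonneg_left h6 hw).trans (le_of_eq ?_)
  have h7 : (n : ℝ) = (N : ℝ) ^ 2 := by
    rw [hcard]
    push_cast
    rfl
  rw [h7]
  ring

end Pool.Agent.Helper43.Matching
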